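import Pool.Agent.H18.POP.Core

/-! Pulling back a set through a Freiman isomorphism of order 6, with the numbers of representations. -/

set_option autoImplicit false

open Finset
open scoped Pointwise

namespace Pool.H77.LP

open Pool.Agent.H18.POP

theorem pullback_rep {N M : ℕ} [NeZero N] [NeZero M] (A₂ : Finset (ZMod N)) (hA : A₂.Nonempty)
    (φ : ZMod N → ZMod M)
    (hφ : ∀ x y : Fin 6 → ZMod N, (∀ i, x i ∈ A₂) → (∀ i, y i ∈ A₂) →
      (∑ i, x i = ∑ i, y i ↔ ∑ i, φ (x i) = ∑ i, φ (y i)))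
    (B B' : Finset (ZMod M))
    (hB : B ⊆ (A₂.image φ + A₂.image φ) - (A₂.image φ + A₂.image φ))
    (h0 : (0 : ZMod M) ∈ B') (hneg : -B' = B') (l : ℕ) (hl1 : 1 ≤ l)
    (hl : ∀ j ≤ l, j • B' ⊆ B) :
    ∃ X : Finset (ZMod N), (0 : ZMod N) ∈ X ∧ -X = X ∧ X.card = B'.card ∧
      ∀ x ∈ l • X, ∃ b ∈ B, rep4 (A₂.image φ) b ≤ rep4 A₂ x := by
  obtain ⟨a₀, ha₀⟩ := hA
  have R : ∀ a b c d e f a' b' c' d' e' f' : ZMod N, a ∈ A₂ → b ∈ A₂ → c ∈ A₂ → d ∈ A₂ →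
      e ∈ A₂ → f ∈ A₂ → a' ∈ A₂ → b' ∈ A₂ → c' ∈ A₂ → d' ∈ A₂ → e' ∈ A₂ → f' ∈ A₂ →
      (a + b + c + d + e + f = a' + b' + c' + d' + e' + f' ↔
        φ a + φ b + φ c + φ d + φ e + φ f = φ a' + φ b' + φ c' + φ d' + φ e' + φ f') := by
    intro a b c d e f a' b' c' d' e' f' h1 h2 h3 h4 h5 h6 k1 k2 k3 k4 k5 k6
    have h := hφ ![a, b, c, d, e, f] ![a', b', c', d', e', f']
      (by intro i; fin_cases i <;> simpa) (by intro i; fin_cases i <;> simpa)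
    simpa [Fin.sum_univ_six] using h
  have hrep : ∀ b ∈ B, ∃ c : Fin 4 → ZMod N, (∀ i, c i ∈ A₂) ∧
      b = φ (c 0) + φ (c 1) - (φ (c 2) + φ (c 3)) := by
    intro b hb
    obtain ⟨u, hu, v, hv, rfl⟩ := Finset.mem_sub.1 (hB hb)
    obtain ⟨u1, hu1, u2, hu2, rfl⟩ := Finset.mem_add.1 hu
    obtain ⟨v1, hv1, v2, hv2, rfl⟩ := Finset.mem_add.1 hv
    obtain ⟨a1, h1, rfl⟩ := Finset.mem_image.1 hu1
    obtain ⟨a2, h2, rfl⟩ := Finset.mem_image.1 hu2
    obtain ⟨a3, h3, rfl⟩ := Finset.mem_image.1 hv1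
    obtain ⟨a4, h4, rfl⟩ := Finset.mem_image.1 hv2
    exact ⟨![a1, a2, a3, a4], by intro i; fin_cases i <;> simpa, rfl⟩
  choose! c hcA hcb using hrep
  let ψ : ZMod M → ZMod N := fun b => c b 0 + c b 1 - (c b 2 + c b 3)
  have hψ : ∀ b, ψ b = c b 0 + c b 1 - (c b 2 + c b 3) := fun _ => rfl
  have W : ∀ b ∈ B, ∀ e1 ∈ A₂, ∀ e2 ∈ A₂, ∀ e3 ∈ A₂, ∀ e4 ∈ A₂,
      b = φ e1 + φ e2 - (φ e3 + φ e4) → ψ b = e1 + e2 - (e3 + e4) := by
    intro b hb e1 h1 e2 h2 e3 h3 e4 h4 he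
    have hc := hcb b hb
    have h := (R (c b 0) (c b 1) e3 e4 a₀ a₀ e1 e2 (c b 2) (c b 3) a₀ a₀ (hcA b hb 0) (hcA b hb 1)
      h3 h4 ha₀ ha₀ h1 h2 (hcA b hb 2) (hcA b hb 3) ha₀ ha₀).2 (by
        linear_combination he - hc)
    rw [hψ]
    linear_combination h
  have S : ∀ b ∈ B, ∀ b' ∈ B, b + b' ∈ B → ψ (b + b') = ψ b + ψ b' := by
    intro b hb b' hb' hbb
    have h1 := hcb b hb
    have h2 := hcb b' hb'
    have h3 := hcb _ hbb
    have h := (R (c b 0) (c b 1) (c b' 0) (c b' 1) (c (b + b') 2) (c (b + b') 3)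
      (c (b + b') 0) (c (b + b') 1) (c b 2) (c b 3) (c b' 2) (c b' 3)
      (hcA b hb 0) (hcA b hb 1) (hcA b' hb' 0) (hcA b' hb' 1) (hcA _ hbb 2) (hcA _ hbb 3)
      (hcA _ hbb 0) (hcA _ hbb 1) (hcA b hb 2) (hcA b hb 3) (hcA b' hb' 2) (hcA b' hb' 3)).2 (by
        linear_combination h3 - h1 - h2)
    rw [hψ, hψ, hψ]
    linear_combination -h
  have I : ∀ b ∈ B, ∀ b' ∈ B, ψ b = ψ b' → b = b' := by
    intro b hb b' hb' hbb
    have h1 := hcb b hb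
    have h2 := hcb b' hb'
    rw [hψ, hψ] at hbb
    have h := (R (c b 0) (c b 1) (c b' 2) (c b' 3) a₀ a₀ (c b' 0) (c b' 1) (c b 2) (c b 3) a₀ a₀
      (hcA b hb 0) (hcA b hb 1) (hcA b' hb' 2) (hcA b' hb' 3) ha₀ ha₀
      (hcA b' hb' 0) (hcA b' hb' 1) (hcA b hb 2) (hcA b hb 3) ha₀ ha₀).1 (by
        linear_combination hbb)
    rw [h1, h2]
    linear_combination h
  have hB' : B' ⊆ B := by
    have h := hl 1 hl1
    rwa [one_nsmul] at h
  have hψ0 : ψ 0 = 0 := by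
    rw [W 0 (hB' h0) a₀ ha₀ a₀ ha₀ a₀ ha₀ a₀ ha₀ (by ring)]
    ring
  have hmneg : ∀ b ∈ B', -b ∈ B' := by
    intro b hb
    rw [← hneg]
    simpa using hb
  have hψn : ∀ b ∈ B', ψ (-b) = -ψ b := by
    intro b hb
    have h := S b (hB' hb) (-b) (hB' (hmneg b hb)) (by
      rw [add_neg_cancel]
      exact hB' h0)
    rw [add_neg_cancel, hψ0] at h
    exact eq_neg_of_add_eq_zero_right h.symm
  refine ⟨B'.image ψ, ?_, ?_, ?_, ?_⟩
  · exact Finset.mem_image.2 ⟨0, h0, hψ0⟩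
  · have hsub : ∀ x ∈ B'.image ψ, -x ∈ B'.image ψ := by
      intro x hx
      obtain ⟨b, hb, rfl⟩ := Finset.mem_image.1 hx
      exact Finset.mem_image.2 ⟨-b, hmneg b hb, hψn b hb⟩
    ext x
    rw [Finset.mem_neg']
    constructor
    · intro hx
      have h := hsub _ hx
      rwa [neg_neg] at h
    · exact hsub x
  · exact Finset.card_image_of_injOn fun b hb b' hb' h => I b (hB' hb) b' (hB' hb') h
  · have key : ∀ j ≤ l, ∀ x ∈ j • B'.image ψ, ∃ b ∈ j • B', ψ b = x := by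
      intro j
      induction j with
      | zero =>
        intro _ x hx
        rw [zero_nsmul, Finset.mem_zero] at hx
        exact ⟨0, by rw [zero_nsmul]; exact Finset.mem_zero.2 rfl, by rw [hψ0, hx]⟩
      | succ j ih =>
        intro hj x hx
        rw [succ_nsmul] at hx
        obtain ⟨y, hy, z, hz, rfl⟩ := Finset.mem_add.1 hx
        obtain ⟨b, hb, rfl⟩ := ih (by omega) y hy
        obtain ⟨b', hb', rfl⟩ := Finset.mem_image.1 hz
        have hbb : b + b' ∈ (j + 1) • B' := by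
          rw [succ_nsmul]
          exact Finset.add_mem_add hb hb'
        exact ⟨b + b', hbb, S b (hl j (by omega) hb) b' (hB' hb') (hl (j + 1) hj hbb)⟩
    intro x hx
    obtain ⟨b, hb, rfl⟩ := key l le_rfl x hx
    have hbB := hl l le_rfl hb
    refine ⟨b, hbB, ?_⟩
    have hg : ∀ e ∈ A₂.image φ, ∃ a ∈ A₂, φ a = e := fun e he => Finset.mem_image.1 he
    choose! g hgA hgφ using hg
    unfold rep4
    refine Finset.card_le_card_of_injOn (fun p => ((g p.1.1, g p.1.2), (g p.2.1, g p.2.2))) ?_ ?_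
    · intro p hp
      rw [Finset.mem_coe, Finset.mem_filter, Finset.mem_product, Finset.mem_product, Finset.mem_product] at hp
      obtain ⟨⟨⟨h1, h2⟩, h3, h4⟩, h5⟩ := hp
      rw [Finset.mem_coe, Finset.mem_filter, Finset.mem_product, Finset.mem_product, Finset.mem_product]
      refine ⟨⟨⟨hgA _ h1, hgA _ h2⟩, hgA _ h3, hgA _ h4⟩, ?_⟩
      have h6 := W b hbB _ (hgA _ h1) _ (hgA _ h2) _ (hgA _ h3) _ (hgA _ h4) (by
        rw [hgφ _ h1, hgφ _ h2, hgφ _ h3, hgφ _ h4]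
        linear_combination -h5)
      simp only
      rw [h6]
      ring
    · intro p hp p' hp' h
      rw [Finset.mem_coe, Finset.mem_filter, Finset.mem_product, Finset.mem_product, Finset.mem_product] at hp hp'
      obtain ⟨⟨⟨h1, h2⟩, h3, h4⟩, -⟩ := hp
      obtain ⟨⟨⟨h1', h2'⟩, h3', h4'⟩, -⟩ := hp'
      simp only [Prod.mk.injEq] at h
      obtain ⟨⟨k1, k2⟩, k3, k4⟩ := h
      have e1 := congrArg φ k1
      have e2 := congrArg φ k2
      have e3 := congrArg φ k3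
      have e4 := congrArg φ k4
      rw [hgφ _ h1, hgφ _ h1'] at e1
      rw [hgφ _ h2, hgφ _ h2'] at e2
      rw [hgφ _ h3, hgφ _ h3'] at e3
      rw [hgφ _ h4, hgφ _ h4'] at e4
      exact Prod.ext (Prod.ext e1 e2) (Prod.ext e3 e4)

end Pool.H77.LP
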