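import Pool.Agent.H84.IT.LA
import Pool.Agent.H77.LP.Pb
import Pool.Agent.H18.POP.Final

set_option autoImplicit false

/-!
A large set whose `l`-fold differences have many representations in `2A - 2A`, `A` of doubling `exp k`
(copy of `Pool/Agent/H84/IT/LA.lean` with the numbers of representations).
-/

namespace Pool.H77.LP

open Pool.H84.CP Pool.Agent.H18 Pool.Agent.H18.POP Pool.H84.IT
open scoped Pointwise

lemma rep4_pos {G : Type*} [AddCommGroup G] [DecidableEq G] (A : Finset G) (x : G) (h : 0 < POP.rep4 A x) :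
    ∃ a₁ ∈ A, ∃ a₂ ∈ A, ∃ a₃ ∈ A, ∃ a₄ ∈ A, x = a₁ + a₂ - a₃ - a₄ := by
  unfold POP.rep4 at h
  obtain ⟨p, hp⟩ := Finset.card_pos.1 h
  rw [Finset.mem_filter, Finset.mem_product, Finset.mem_product, Finset.mem_product] at hp
  obtain ⟨⟨⟨h1, h2⟩, h3, h4⟩, h5⟩ := hp
  exact ⟨_, h1, _, h2, _, h3, _, h4, h5.symm⟩

lemma rep4_mono {G : Type*} [AddCommGroup G] [DecidableEq G] {A B : Finset G} (h : A ⊆ B) (x : G) :
    POP.rep4 A x ≤ POP.rep4 B x := by
  unfold POP.rep4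
  refine Finset.card_le_card (Finset.filter_subset_filter _ ?_)
  exact Finset.product_subset_product (Finset.product_subset_product h h) (Finset.product_subset_product h h)

lemma Set_num (C₀ c₀ : ℝ) (p : ℕ) (hC₀ : 0 < C₀) (hc₀ : 0 < c₀) :
    ∃ C : ℝ, 0 < C ∧ ∀ (k L ρ : ℝ) (g l m : ℕ), 1 ≤ k → 1 / 2 ≤ L → L ≤ 12 * k + 6 →
      0 < ρ → (g : ℝ) ≤ C₀ * L ^ 2 → c₀ / (L + 2) ^ p ≤ ρ → 1 ≤ l →
      m = ⌈2 * (l : ℝ) / min ρ 1⌉₊ →
      (g : ℝ) * Real.log m + 5 ≤ C * (k ^ 2 * (Real.log (k + 2) + Real.log (l + 1))) := by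
  set c' : ℝ := min c₀ 1 with hc'
  have hc'0 : 0 < c' := lt_min hc₀ one_pos
  set D : ℝ := (p + 1) + Real.log 3 + p * Real.log 12 + |Real.log c'| with hD
  have hl3 : 0 ≤ Real.log 3 := Real.log_nonneg (by norm_num)
  have hl12 : 0 ≤ Real.log 12 := Real.log_nonneg (by norm_num)
  have hD0 : 0 < D := by
    have := abs_nonneg (Real.log c')
    rw [hD]; positivity
  refine ⟨C₀ * 324 * D + 5, by positivity, ?_⟩
  intro k L ρ g l m hk hL1 hL2 hρ hg hρ2 hl hm
  have hlr : (1 : ℝ) ≤ l := by exact_mod_cast hl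
  have hmin : 0 < min ρ 1 := lt_min hρ one_pos
  have hLp : 0 < L + 2 := by linarith
  have hmin2 : c' / (L + 2) ^ p ≤ min ρ 1 := by
    refine le_min (le_trans ?_ hρ2) ?_
    · gcongr
      exact min_le_left _ _
    · rw [div_le_one (by positivity)]
      have h1 : c' ≤ 1 := min_le_right _ _
      exact h1.trans (one_le_pow₀ (by linarith))
  have hm1 : (1 : ℝ) ≤ 2 * (l : ℝ) / min ρ 1 := by
    rw [le_div_iff₀ hmin]
    have : min ρ 1 ≤ 1 := min_le_right _ _
    linarith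
  have hmle : (m : ℝ) ≤ 3 * l * (12 * (k + 2)) ^ p / c' := by
    have h1 : (m : ℝ) ≤ 2 * (l : ℝ) / min ρ 1 + 1 := by
      rw [hm]
      exact (Nat.ceil_lt_add_one (by linarith)).le
    have h2 : (1 : ℝ) ≤ (l : ℝ) / min ρ 1 := by
      rw [le_div_iff₀ hmin]
      have : min ρ 1 ≤ 1 := min_le_right _ _
      linarith
    have h3 : (m : ℝ) ≤ 3 * (l : ℝ) / min ρ 1 := by
      have h4 : 3 * (l : ℝ) / min ρ 1 = 2 * (l : ℝ) / min ρ 1 + (l : ℝ) / min ρ 1 := by ring
      rw [h4]; linarith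
    refine h3.trans ?_
    calc 3 * (l : ℝ) / min ρ 1 ≤ 3 * (l : ℝ) / (c' / (L + 2) ^ p) := by gcongr
      _ = 3 * l * (L + 2) ^ p / c' := by field_simp
      _ ≤ 3 * l * (12 * (k + 2)) ^ p / c' := by
          gcongr
          linarith
  have hmpos : (1 : ℝ) ≤ m := by
    rw [hm]
    exact hm1.trans (Nat.le_ceil _)
  set T : ℝ := Real.log (k + 2) + Real.log (l + 1) with hT
  have hk2 : 1 ≤ Real.log (k + 2) := by
    rw [Real.le_log_iff_exp_le (by linarith)]
    have := Real.exp_one_lt_d9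
    linarith
  have hl2 : 0 ≤ Real.log ((l : ℝ) + 1) := Real.log_nonneg (by linarith)
  have hT1 : 1 ≤ T := by rw [hT]; linarith
  have hlogm : Real.log m ≤ D * T := by
    have h1 := Real.log_le_log (by linarith) hmle
    rw [Real.log_div (by positivity) hc'0.ne', Real.log_mul (by positivity) (by positivity),
      Real.log_mul (by norm_num) (by positivity), Real.log_pow,
      Real.log_mul (by norm_num) (by positivity)] at h1
    have h2 : Real.log (l : ℝ) ≤ Real.log ((l : ℝ) + 1) :=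
      Real.log_le_log (by linarith) (by linarith)
    have h3 : - Real.log c' ≤ |Real.log c'| := neg_le_abs _
    push_cast at h1
    have h4 : Real.log 3 ≤ Real.log 3 * T := le_mul_of_one_le_right hl3 hT1
    have h5 : Real.log 12 ≤ Real.log 12 * T := le_mul_of_one_le_right hl12 hT1
    have h6 : |Real.log c'| ≤ |Real.log c'| * T := le_mul_of_one_le_right (abs_nonneg _) hT1
    have h7 : D * T = (p + 1) * T + Real.log 3 * T + p * (Real.log 12 * T) + |Real.log c'| * T := by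
      rw [hD]; ring
    rw [h7]
    have h8 : p * Real.log (k + 2) + Real.log ((l : ℝ) + 1) ≤ (p + 1) * T := by
      have h9 : (p : ℝ) * Real.log (k + 2) ≤ p * T :=
        mul_le_mul_of_nonneg_left (by rw [hT]; linarith) (Nat.cast_nonneg p)
      have h10 : Real.log ((l : ℝ) + 1) ≤ T := by rw [hT]; linarith
      linarith
    have h11 : (p : ℝ) * Real.log 12 ≤ p * (Real.log 12 * T) :=
      mul_le_mul_of_nonneg_left h5 (Nat.cast_nonneg p)
    rw [mul_add] at h1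
    linarith
  have hlogm0 : 0 ≤ Real.log m := Real.log_nonneg hmpos
  have hg2 : (g : ℝ) ≤ C₀ * 324 * k ^ 2 := by
    refine hg.trans ?_
    have h1 : L ^ 2 ≤ (18 * k) ^ 2 := by
      have : L ≤ 18 * k := by linarith
      gcongr
    calc C₀ * L ^ 2 ≤ C₀ * (18 * k) ^ 2 := by gcongr
      _ = C₀ * 324 * k ^ 2 := by ring
  have h1 : (g : ℝ) * Real.log m ≤ (C₀ * 324 * k ^ 2) * (D * T) := by
    gcongr
  have h2 : 1 ≤ k ^ 2 * T := by
    have : 1 ≤ k ^ 2 := one_le_pow₀ hk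
    calc (1 : ℝ) = 1 * 1 := by norm_num
      _ ≤ k ^ 2 * T := by gcongr
  have h3 : (C₀ * 324 * D + 5) * (k ^ 2 * T) = (C₀ * 324 * k ^ 2) * (D * T) + 5 * (k ^ 2 * T) := by
    ring
  rw [h3]
  linarith

theorem local_set_pop :
    ∃ C : ℝ, 0 < C ∧ ∀ N : ℕ, ∀ _ : NeZero N, ∀ A : Finset (ZMod N), A.Nonempty →
      ∀ k : ℝ, 1 ≤ k → ((A - A).card : ℝ) ≤ Real.exp k * A.card → ∀ l : ℕ, 1 ≤ l →
      ∃ X : Finset (ZMod N), X.Nonempty ∧
        Real.log ((N : ℝ) / (X.card : ℝ)) ≤ Real.log ((N : ℝ) / (A.card : ℝ))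
          + C * (k ^ 2 * (Real.log (k + 2) + Real.log (l + 1))) ∧
        ∀ a b : Fin l → ZMod N, (∀ i, a i ∈ X) → (∀ i, b i ∈ X) →
          Real.exp (-(24 * k + 43)) * (A.card : ℝ) ^ 3 ≤ (POP.rep4 A (∑ i, a i - ∑ i, b i) : ℝ) := by
  obtain ⟨C₀, hC₀, c₀, hc₀, hbase⟩ := pop_base
  obtain ⟨C, hC, hnum⟩ := Set_num (C₀ * 4) c₀ 5 (by positivity) hc₀
  refine ⟨C, hC, ?_⟩
  intro N _ A hA k hk hAK l hl
  have hN : (0 : ℝ) < N := by exact_mod_cast Nat.pos_of_ne_zero (NeZero.ne N)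
  have hc : (0 : ℝ) < A.card := by exact_mod_cast hA.card_pos
  set K : ℝ := Real.exp k with hK
  have hK1 : 1 ≤ K := Real.one_le_exp (by linarith)
  have hK0 : 0 < K := by linarith
  -- the model
  obtain ⟨M, hMne, A₂, φ, hA₂A, hA₂ne, hA₂c, h2A₂, hMD, hφ⟩ := Pool.Agent.H18.LQ.model A hA
  have hM0 : 0 < M := Nat.pos_of_ne_zero hMne.out
  have hMpos : (0 : ℝ) < M := by exact_mod_cast hM0
  have hAA₂ : (A.card : ℝ) ≤ 72 * A₂.card := by exact_mod_cast hA₂c
  have hc₂ : (0 : ℝ) < A₂.card := by exact_mod_cast hA₂ne.card_pos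
  set E : Finset (ZMod M) := A₂.image φ with hE
  have hinj : Set.InjOn φ (A₂ : Set (ZMod N)) := by
    intro a ha b hb hab
    obtain ⟨a₀, ha₀⟩ := hA₂ne
    have h2 := (hφ ![a, a₀, a₀, a₀, a₀, a₀] ![b, a₀, a₀, a₀, a₀, a₀] (by
        intro i
        fin_cases i <;> first | exact ha | exact ha₀) (by
        intro i
        fin_cases i <;> first | exact hb | exact ha₀)).2 (by
        rw [Fin.sum_univ_six, Fin.sum_univ_six]
        simp [hab])
    rw [Fin.sum_univ_six, Fin.sum_univ_six] at h2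
    simpa using h2
  have hEc : E.card = A₂.card := Finset.card_image_of_injOn hinj
  have hEne : E.Nonempty := hA₂ne.image φ
  have h2A₂M : 2 * (A₂.card : ℝ) ≤ M := by exact_mod_cast h2A₂
  have hdens : (E.card : ℝ) / (M : ℝ) ≤ 1 / 2 := by
    rw [hEc, div_le_iff₀ hMpos]; linarith
  have hMle : (M : ℝ) ≤ 216 * K ^ 12 * A₂.card := by
    have h1 := LQ.plu A hA K hAK 6 6
    have h4 : (1 : ℝ) ≤ A₂.card := by exact_mod_cast hA₂ne.card_pos
    have h5 : (1 : ℝ) ≤ K ^ 12 := one_le_pow₀ hK1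
    have h6 : (M : ℝ) ≤ 2 * (((6 • A) - (6 • A)).card : ℝ) + 1 := by exact_mod_cast hMD
    have h7 : K ^ 12 * (A.card : ℝ) ≤ K ^ 12 * (72 * A₂.card) := by gcongr
    have h8 : 1 ≤ K ^ 12 * (A₂.card : ℝ) := by
      calc (1 : ℝ) = 1 * 1 := by norm_num
        _ ≤ K ^ 12 * A₂.card := by gcongr
    norm_num at h1
    linarith
  set L : ℝ := Real.log ((M : ℝ) / (E.card : ℝ)) with hL
  have hLk : L ≤ 12 * k + 6 := by
    rw [hL, hEc]
    have h1 : (M : ℝ) / A₂.card ≤ 216 * K ^ 12 := by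
      rw [div_le_iff₀ hc₂]; exact hMle
    have h2 := Real.log_le_log (by positivity) h1
    rw [Real.log_mul (by norm_num) (by positivity), Real.log_pow, hK, Real.log_exp] at h2
    have h3 : Real.log 216 ≤ 6 := by
      rw [Real.log_le_iff_le_exp (by norm_num)]
      have h4 : Real.exp 6 = Real.exp 1 ^ 6 := by rw [← Real.exp_nat_mul]; norm_num
      rw [h4]
      have h5 : (2.7 : ℝ) ≤ Real.exp 1 := by
        have := Real.exp_one_gt_d9
        linarith
      calc (216 : ℝ) ≤ 2.7 ^ 6 := by norm_num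
        _ ≤ Real.exp 1 ^ 6 := pow_le_pow_left₀ (by norm_num) h5 6
    push_cast at h2
    linarith
  have hLlow : 1 / 2 ≤ L := by
    have h1 : (2 : ℝ) ≤ (M : ℝ) / E.card := by
      rw [hEc, le_div_iff₀ hc₂]; exact h2A₂M
    have h2 := Real.log_le_log (by norm_num) h1
    have h3 := Real.log_two_gt_d9
    rw [hL]; linarith
  obtain ⟨Γ', ρ, hρ, hΓ0, hρ2, hpop⟩ := hbase M hM0 E hEne hdens L hL (max 16 L) (le_max_left _ _)
  have hEc0 : (0 : ℝ) < E.card := by rw [hEc]; exact hc₂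
  have hKm : 0 < max 16 L := lt_of_lt_of_le (by norm_num) (le_max_left _ _)
  have hΓ' : (Γ'.card : ℝ) ≤ (C₀ * 4) * L ^ 2 := by
    refine hΓ0.trans ?_
    have h1 : L / max 16 L ≤ 1 := by
      rw [div_le_one hKm]
      exact le_max_right _ _
    have h0 : 0 ≤ L / max 16 L := by positivity
    have h2 : Real.log (2 + L / max 16 L) ≤ 2 := by
      have := Real.log_le_sub_one_of_pos (show 0 < 2 + L / max 16 L by linarith)
      linarith
    have h3 : 0 ≤ Real.log (2 + L / max 16 L) := Real.log_nonneg (by linarith)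
    have h4 : Real.log (2 + L / max 16 L) ^ 2 ≤ 2 ^ 2 := pow_le_pow_left₀ h3 h2 2
    calc C₀ * (L ^ 2 * Real.log (2 + L / max 16 L) ^ 2) ≤ C₀ * (L ^ 2 * 2 ^ 2) := by gcongr
      _ = _ := by ring
  have hpop' : ∀ b : ZMod M, b ∈ LQ.bohr Γ' ρ →
      Real.exp (-(24 * k + 43)) * (A.card : ℝ) ^ 3 ≤ (POP.rep4 E b : ℝ) := by
    intro b hb
    rw [LQ.mem_bohr] at hb
    have h0 : Real.exp (-(max 16 L + 1)) * ((E.card : ℝ) ^ 4 / M) ≤ (POP.rep4 E b : ℝ) := by
      have h1 := hpop b hb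
      rw [← mul_div_assoc, le_div_iff₀ (by positivity)] at h1
      rw [← mul_div_assoc, div_le_iff₀ hMpos]
      linarith
    refine le_trans ?_ h0
    have h1 : (E.card : ℝ) ^ 4 / M = (E.card : ℝ) ^ 3 * Real.exp (-L) := by
      rw [hL, Real.exp_neg, Real.exp_log (by positivity)]
      field_simp
    have h2 : (A.card : ℝ) ≤ 72 * E.card := by rw [hEc]; exact hAA₂
    have h3 : (A.card : ℝ) ^ 3 ≤ 373248 * (E.card : ℝ) ^ 3 := by
      calc (A.card : ℝ) ^ 3 ≤ (72 * (E.card : ℝ)) ^ 3 := pow_le_pow_left₀ hc.le h2 3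
        _ = 373248 * (E.card : ℝ) ^ 3 := by ring
    have h4 : (373248 : ℝ) ≤ Real.exp 13 := by
      have h5 : (2.7 : ℝ) ≤ Real.exp 1 := by
        have := Real.exp_one_gt_d9
        linarith
      have h6 : Real.exp 13 = Real.exp 1 ^ 13 := by rw [← Real.exp_nat_mul]; norm_num
      rw [h6]
      calc (373248 : ℝ) ≤ 2.7 ^ 13 := by norm_num
        _ ≤ Real.exp 1 ^ 13 := pow_le_pow_left₀ (by norm_num) h5 13
    have h7 : max 16 L ≤ 16 + L := max_le (by linarith) (by linarith)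
    have h8 : Real.exp (-(24 * k + 43)) * 373248 ≤ Real.exp (-(max 16 L + 1)) * Real.exp (-L) := by
      calc Real.exp (-(24 * k + 43)) * 373248 ≤ Real.exp (-(24 * k + 43)) * Real.exp 13 := by gcongr
        _ = Real.exp (-(24 * k + 30)) := by rw [← Real.exp_add]; congr 1; ring
        _ ≤ Real.exp (-(max 16 L + 1) + -L) := Real.exp_le_exp.2 (by linarith)
        _ = _ := Real.exp_add _ _
    rw [h1]
    calc Real.exp (-(24 * k + 43)) * (A.card : ℝ) ^ 3
        ≤ Real.exp (-(24 * k + 43)) * (373248 * (E.card : ℝ) ^ 3) := by gcongr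
      _ = Real.exp (-(24 * k + 43)) * 373248 * (E.card : ℝ) ^ 3 := by ring
      _ ≤ Real.exp (-(max 16 L + 1)) * Real.exp (-L) * (E.card : ℝ) ^ 3 := by gcongr
      _ = _ := by ring
  have hn := hnum k L ρ Γ'.card l _ hk hLlow hLk hρ hΓ' hρ2 hl rfl
  set m : ℕ := ⌈2 * (l : ℝ) / min ρ 1⌉₊ with hm
  have hlr : (1 : ℝ) ≤ l := by exact_mod_cast hl
  have hmin : 0 < min ρ 1 := lt_min hρ one_pos
  have hmr : 2 * (l : ℝ) / min ρ 1 ≤ m := Nat.le_ceil _
  have hmpos : (0 : ℝ) < m := lt_of_lt_of_le (by positivity) hmr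
  have hm1 : 0 < m := by exact_mod_cast hmpos
  have hnm : 2 * (l : ℝ) / m ≤ ρ := by
    rw [div_le_iff₀ hmpos]
    have h1 : 2 * (l : ℝ) ≤ m * min ρ 1 := by
      rwa [div_le_iff₀ hmin] at hmr
    have h2 : (m : ℝ) * min ρ 1 ≤ m * ρ := by
      gcongr
      exact min_le_left _ _
    linarith
  -- the small Bohr set
  set B' : Finset (ZMod M) := LQ.bohr Γ' (1 / (m : ℝ)) with hB'
  have hB'c : M ≤ m ^ Γ'.card * B'.card := LQ.bohr_card Γ' m hm1
  have hB'c' : (M : ℝ) ≤ (m : ℝ) ^ Γ'.card * B'.card := by exact_mod_cast hB'c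
  obtain ⟨X, hX0, hXneg, hXc, hXl⟩ := pullback_rep A₂ hA₂ne φ hφ (LQ.bohr Γ' ρ) B' (by
      intro x hx
      have hpos : 0 < POP.rep4 E x := by
        have h1 := hpop' x hx
        have h2 : 0 < Real.exp (-(24 * k + 43)) * (A.card : ℝ) ^ 3 := by positivity
        exact_mod_cast lt_of_lt_of_le h2 h1
      obtain ⟨a₁, h1, a₂, h2, a₃, h3, a₄, h4, h5⟩ := rep4_pos E x hpos
      rw [h5, sub_sub]
      exact Finset.sub_mem_sub (Finset.add_mem_add h1 h2) (Finset.add_mem_add h3 h4))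
    (LQ.zero_mem_bohr _ _ (by positivity)) (LQ.neg_bohr _ _) (2 * l) (by omega) (by
      intro j hj
      refine (LQ.nsmul_bohr_subset Γ' _ j).trans (LQ.bohr_mono _ _ _ ?_)
      refine le_trans ?_ hnm
      rw [mul_one_div]
      have : (j : ℝ) ≤ 2 * (l : ℝ) := by exact_mod_cast hj
      gcongr)
  have hXc' : (M : ℝ) ≤ (m : ℝ) ^ Γ'.card * X.card := by rw [hXc]; exact hB'c'
  have hXpos : (0 : ℝ) < X.card := by exact_mod_cast Finset.card_pos.2 ⟨0, hX0⟩
  have hA₂X : (A₂.card : ℝ) ≤ (m : ℝ) ^ Γ'.card * X.card := by linarith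
  refine ⟨X, ⟨0, hX0⟩, ?_, ?_⟩
  · have h1 : (N : ℝ) / X.card ≤ (N : ℝ) / A.card * 72 * (m : ℝ) ^ Γ'.card := by
      rw [div_le_iff₀ hXpos]
      calc (N : ℝ) = (N : ℝ) / A.card * A.card := by field_simp
        _ ≤ (N : ℝ) / A.card * (72 * ((m : ℝ) ^ Γ'.card * X.card)) := by
            gcongr
            linarith
        _ = _ := by ring
    have h2 := Real.log_le_log (by positivity) h1
    rw [Real.log_mul (by positivity) (by positivity), Real.log_mul (by positivity) (by norm_num),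
      Real.log_pow] at h2
    have h3 : Real.log 72 ≤ 5 := by
      rw [Real.log_le_iff_le_exp (by norm_num)]
      have h4 : Real.exp 5 = Real.exp 1 ^ 5 := by rw [← Real.exp_nat_mul]; norm_num
      rw [h4]
      have h5 : (2.7 : ℝ) ≤ Real.exp 1 := by
        have := Real.exp_one_gt_d9
        linarith
      calc (72 : ℝ) ≤ 2.7 ^ 5 := by norm_num
        _ ≤ Real.exp 1 ^ 5 := pow_le_pow_left₀ (by norm_num) h5 5
    linarith
  · intro a b ha hb
    obtain ⟨b', hb', hrep⟩ := hXl _ (LA_diff X hXneg l a b ha hb)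
    refine (hpop' b' hb').trans ?_
    exact_mod_cast hrep.trans (rep4_mono hA₂A _)

end Pool.H77.LP
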