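import Pool.Agent.H84.IT.LC
import Pool.Agent.H77.LP.Set
import Pool.Agent.H77.LP.Bohr

set_option autoImplicit false

/-!
Bohr sets of popular elements of `2A - 2A` in terms of the additive energy (local form of
`Pool/Agent/H18/POP/Final.lean`, popular form of `Pool/Agent/H84/IT/LC.lean`).
-/

namespace Pool.H77.LP

open Pool.H84.CP Pool.Agent.H18 Pool.Agent.H18.POP Pool.H84.IT

/-! ### Parameters -/

lemma log_le_of_exp {a b : ℝ} (n : ℕ) (ha : 0 < a) (h : a ≤ 2.7 ^ n) (hb : (n : ℝ) ≤ b) : Real.log a ≤ b := by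
  refine le_trans ?_ hb
  rw [Real.log_le_iff_le_exp ha]
  have h1 : Real.exp n = Real.exp 1 ^ n := by rw [← Real.exp_nat_mul]; norm_num
  rw [h1]
  have h2 : (2.7 : ℝ) ≤ Real.exp 1 := by
    have := Real.exp_one_gt_d9
    linarith
  exact h.trans (pow_le_pow_left₀ (by norm_num) h2 n)

lemma ell_ge {Q K : ℝ} (hQ : 0 ≤ Q) (hK : 17 ≤ K) : 69 / 100 ≤ Real.log (2 + Q / K) := by
  have h0 : 0 ≤ Q / K := by positivity
  have h1 : Real.log 2 ≤ Real.log (2 + Q / K) := Real.log_le_log (by norm_num) (by linarith)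
  have := Real.log_two_gt_d9
  linarith

lemma ell_sq {Q K : ℝ} (hQ : 0 ≤ Q) (hK : 17 ≤ K) :
    Real.log (2 + Q / K) ^ 2 ≤ 1 + Q ^ 2 * Real.log (2 + Q / K) ^ 2 := by
  have h1 := ell_ge hQ hK
  have h3 : 0 ≤ Real.log (2 + Q / K) ^ 2 := sq_nonneg _
  rcases le_total Q 1 with h | h
  · have h4 : Q / K ≤ 1 / 17 := by
      rw [div_le_iff₀ (by linarith)]
      nlinarith
    have h5 : Real.log (2 + Q / K) ≤ 1 := by
      rw [Real.log_le_iff_le_exp (by positivity)]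
      have := Real.exp_one_gt_d9
      linarith
    have h6 : Real.log (2 + Q / K) ^ 2 ≤ 1 := pow_le_one₀ (by linarith) h5
    have h7 : 0 ≤ Q ^ 2 * Real.log (2 + Q / K) ^ 2 := by positivity
    linarith
  · have h4 : 1 ≤ Q ^ 2 := by nlinarith
    have h5 : 1 * Real.log (2 + Q / K) ^ 2 ≤ Q ^ 2 * Real.log (2 + Q / K) ^ 2 := by gcongr
    linarith

/-- Case of a set of small density relative to its energy. -/
lemma case1 {L Q K lam : ℝ} (hQ : 0 ≤ Q) (hK : 17 ≤ K) (hL0 : 1 / 2 ≤ L) (hL : L ≤ 99 * Q + 310) (hlam : 0 < lam) :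
    L ^ 2 * Real.log (2 + L / K) ^ 2 * (1 + Real.log (L + 2) / lam) ≤
      1000000000000 * (1 + Q ^ 2 * Real.log (2 + Q / K) ^ 2
        + (L + Q ^ 2 * Real.log (2 + Q / K) ^ 2 * Real.log (Q + 2)) / lam) := by
  have hl := ell_ge hQ hK
  have hl2 := ell_sq hQ hK
  have hm := LC_log_two_le Q hQ
  have hQK : 0 ≤ Q / K := by positivity
  have e1 : Real.log (2 + L / K) ≤ 10 * Real.log (2 + Q / K) := by
    have h1 : L / K ≤ (99 * Q + 310) / K := by gcongr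
    have h2 : (99 * Q + 310) / K = 99 * (Q / K) + 310 / K := by ring
    have h3 : 310 / K ≤ 19 := by
      rw [div_le_iff₀ (by linarith)]
      linarith
    have h4 : 2 + L / K ≤ 99 * (2 + Q / K) := by linarith
    have h5 : 0 ≤ L / K := by positivity
    have h6 := Real.log_le_log (by linarith) h4
    rw [Real.log_mul (by norm_num) (by positivity)] at h6
    have h7 : Real.log 99 ≤ 5 := log_le_of_exp 5 (by norm_num) (by norm_num) (by norm_num)
    linarith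
  have e1' : 0 ≤ Real.log (2 + L / K) := Real.log_nonneg (by
    have : 0 ≤ L / K := by positivity
    linarith)
  have e2 : L ^ 2 ≤ 200000 * (1 + Q ^ 2) := by
    have : L ^ 2 ≤ (99 * Q + 310) ^ 2 := pow_le_pow_left₀ (by linarith) hL 2
    nlinarith [sq_nonneg (Q - 1)]
  have e3 : Real.log (L + 2) ≤ 13 * Real.log (Q + 2) := by
    have h1 : L + 2 ≤ 156 * (Q + 2) := by linarith
    have h2 := Real.log_le_log (by linarith) h1
    rw [Real.log_mul (by norm_num) (by positivity)] at h2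
    have h3 : Real.log 156 ≤ 6 := log_le_of_exp 6 (by norm_num) (by norm_num) (by norm_num)
    linarith
  have e4 : 0 ≤ Real.log (L + 2) := Real.log_nonneg (by linarith)
  obtain ⟨ℓ, hℓ⟩ : ∃ ℓ, ℓ = Real.log (2 + Q / K) := ⟨_, rfl⟩
  obtain ⟨m, hm'⟩ : ∃ m, m = Real.log (Q + 2) := ⟨_, rfl⟩
  rw [← hℓ] at hl hl2 e1 ⊢
  rw [← hm'] at hm e3 ⊢
  have f1 : Real.log (2 + L / K) ^ 2 ≤ 100 * ℓ ^ 2 := by
    calc Real.log (2 + L / K) ^ 2 ≤ (10 * ℓ) ^ 2 := pow_le_pow_left₀ e1' e1 2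
      _ = 100 * ℓ ^ 2 := by ring
  have hℓ0 : 0 ≤ ℓ ^ 2 := sq_nonneg _
  have hQℓ : 0 ≤ Q ^ 2 * ℓ ^ 2 := by positivity
  have f2 : L ^ 2 * Real.log (2 + L / K) ^ 2 ≤ 40000000 * (1 + Q ^ 2 * ℓ ^ 2) := by
    calc L ^ 2 * Real.log (2 + L / K) ^ 2 ≤ (200000 * (1 + Q ^ 2)) * (100 * ℓ ^ 2) :=
          mul_le_mul e2 f1 (sq_nonneg _) (by positivity)
      _ = 20000000 * (ℓ ^ 2 + Q ^ 2 * ℓ ^ 2) := by ring
      _ ≤ 20000000 * (1 + Q ^ 2 * ℓ ^ 2 + Q ^ 2 * ℓ ^ 2) := by gcongr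
      _ ≤ _ := by linarith
  have f3 : (1 + Q ^ 2 * ℓ ^ 2) * m ≤ 4 * (L + Q ^ 2 * ℓ ^ 2 * m) := by
    have g0 : 0 ≤ Q ^ 2 * ℓ ^ 2 * m := by positivity
    have g1 : m ≤ 3 * (L + Q ^ 2 * ℓ ^ 2 * m) := by
      rcases le_total Q 1 with h | h
      · have h1 : m ≤ 3 / 2 := by
          rw [hm']
          have h2 : Real.log (Q + 2) ≤ Real.log 3 := Real.log_le_log (by linarith) (by linarith)
          have h3 : Real.log 3 ≤ 3 / 2 := by
            rw [Real.log_le_iff_le_exp (by norm_num)]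
            have h4 : Real.exp (3 / 2) ^ 2 = Real.exp 1 ^ 3 := by
              rw [← Real.exp_nat_mul, ← Real.exp_nat_mul]
              norm_num
            have h5 : (2.7 : ℝ) ≤ Real.exp 1 := by
              have := Real.exp_one_gt_d9
              linarith
            have h6 : (2.7 : ℝ) ^ 3 ≤ Real.exp 1 ^ 3 := pow_le_pow_left₀ (by norm_num) h5 3
            have h7 : (3 : ℝ) ^ 2 ≤ Real.exp (3 / 2) ^ 2 := by
              rw [h4]
              exact le_trans (by norm_num) h6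
            exact le_of_sq_le_sq h7 (Real.exp_pos _).le
          linarith
        linarith
      · have h1 : 1 ≤ Q ^ 2 := by nlinarith
        have h2 : 47 / 100 ≤ ℓ ^ 2 := by nlinarith
        have h3 : 47 / 100 ≤ Q ^ 2 * ℓ ^ 2 := by nlinarith
        have h4 : 47 / 100 * m ≤ Q ^ 2 * ℓ ^ 2 * m := mul_le_mul_of_nonneg_right h3 (by linarith)
        linarith
    linarith
  have f4 : 0 ≤ L ^ 2 * Real.log (2 + L / K) ^ 2 := by positivity
  calc L ^ 2 * Real.log (2 + L / K) ^ 2 * (1 + Real.log (L + 2) / lam)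
      ≤ 40000000 * (1 + Q ^ 2 * ℓ ^ 2) * (1 + (13 * m) / lam) := by gcongr
    _ = 40000000 * (1 + Q ^ 2 * ℓ ^ 2) + 520000000 * (((1 + Q ^ 2 * ℓ ^ 2) * m) / lam) := by ring
    _ ≤ 40000000 * (1 + Q ^ 2 * ℓ ^ 2) + 520000000 * ((4 * (L + Q ^ 2 * ℓ ^ 2 * m)) / lam) := by gcongr
    _ = 40000000 * (1 + Q ^ 2 * ℓ ^ 2) + 2080000000 * ((L + Q ^ 2 * ℓ ^ 2 * m) / lam) := by ring
    _ ≤ _ := by
        have h1 : 0 ≤ (L + Q ^ 2 * ℓ ^ 2 * m) / lam := by positivity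
        have h2 : 0 ≤ 1 + Q ^ 2 * ℓ ^ 2 := by positivity
        linarith

/-- Case of a set of large energy. -/
lemma case2 {L Q K lam LA C₁ g : ℝ} (hQ0 : 0 ≤ Q) (hK : 17 ≤ K) (hLlow : 1 / 2 ≤ L) (hlam : 0 < lam) (hQL : Q ≤ L)
    (h1 : LA ≤ L + Q + 1) (hC₁ : 0 < C₁)
    (hg : g ≤ C₁ * ((11 + 4 * Q) ^ 2 + (LA + (11 + 4 * Q) ^ 2 * Real.log (11 + 4 * Q + 2)) / lam)) :
    g ≤ C₁ * 18162 * (1 + Q ^ 2 * Real.log (2 + Q / K) ^ 2
        + (L + Q ^ 2 * Real.log (2 + Q / K) ^ 2 * Real.log (Q + 2)) / lam) := by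
  have hell := ell_ge hQ0 hK
  have hl := LC_log_two_le Q hQ0
  have hk := LC_log_k Q hQ0
  have hp := LC_param L Q hLlow hQ0
  obtain ⟨ℓ, hℓ⟩ : ∃ ℓ, ℓ = Real.log (Q + 2) := ⟨_, rfl⟩
  rw [← hℓ] at hl hk hp ⊢
  have hl0 : 0 ≤ ℓ := by linarith
  have h2 : (11 + 4 * Q) ^ 2 ≤ 242 * (1 + Q ^ 2) := by nlinarith [sq_nonneg (Q - 1)]
  have h3 : (11 + 4 * Q) ^ 2 * Real.log (11 + 4 * Q + 2) ≤ 6050 * (L + Q ^ 2 * ℓ) := by
    calc (11 + 4 * Q) ^ 2 * Real.log (11 + 4 * Q + 2)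
        ≤ (11 + 4 * Q) ^ 2 * (5 * ℓ) := by gcongr
      _ ≤ (242 * (1 + Q ^ 2)) * (5 * ℓ) := by gcongr
      _ = 1210 * ((1 + Q ^ 2) * ℓ) := by ring
      _ ≤ 1210 * (5 * (L + Q ^ 2 * ℓ)) := by gcongr
      _ = 6050 * (L + Q ^ 2 * ℓ) := by ring
  have hQl : 0 ≤ Q ^ 2 * ℓ := by positivity
  have h4 : LA + (11 + 4 * Q) ^ 2 * Real.log (11 + 4 * Q + 2) ≤ 6054 * (L + Q ^ 2 * ℓ) := by linarith
  have h5 : (LA + (11 + 4 * Q) ^ 2 * Real.log (11 + 4 * Q + 2)) / lam ≤ 6054 * ((L + Q ^ 2 * ℓ) / lam) := by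
    rw [← mul_div_assoc]
    exact div_le_div_of_nonneg_right h4 hlam.le
  have h6 : g ≤ C₁ * (6054 * (1 + Q ^ 2) + 6054 * ((L + Q ^ 2 * ℓ) / lam)) := by
    refine hg.trans ?_
    apply mul_le_mul_of_nonneg_left _ hC₁.le
    have h6 : 242 * (1 + Q ^ 2) ≤ 6054 * (1 + Q ^ 2) := by nlinarith [sq_nonneg Q]
    linarith
  obtain ⟨e, he⟩ : ∃ e, e = Real.log (2 + Q / K) := ⟨_, rfl⟩
  rw [← he] at hell ⊢
  have he2 : 1 ≤ 3 * e ^ 2 := by nlinarith
  have h7 : Q ^ 2 ≤ 3 * (Q ^ 2 * e ^ 2) := by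
    have := mul_le_mul_of_nonneg_left he2 (sq_nonneg Q)
    linarith
  have h8 : L + Q ^ 2 * ℓ ≤ 3 * (L + Q ^ 2 * e ^ 2 * ℓ) := by
    have := mul_le_mul_of_nonneg_right h7 hl0
    linarith
  have h9 : (L + Q ^ 2 * ℓ) / lam ≤ 3 * ((L + Q ^ 2 * e ^ 2 * ℓ) / lam) := by
    rw [← mul_div_assoc]
    exact div_le_div_of_nonneg_right h8 hlam.le
  have h12 : 6054 * (1 + Q ^ 2) + 6054 * ((L + Q ^ 2 * ℓ) / lam) ≤
      18162 * (1 + Q ^ 2 * e ^ 2 + (L + Q ^ 2 * e ^ 2 * ℓ) / lam) := by linarith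
  have h13 := h6.trans (mul_le_mul_of_nonneg_left h12 hC₁.le)
  linarith

theorem local_pop :
    ∃ C : ℝ, 0 < C ∧
      ∀ N : ℕ, 0 < N → ∀ A : Finset (ZMod N), A.Nonempty →
        (A.card : ℝ) / (N : ℝ) ≤ 1 / 2 →
        ∀ L Q : ℝ, L = Real.log ((N : ℝ) / (A.card : ℝ)) →
          Q = Real.log ((A.card : ℝ) ^ 3 / (A.addEnergy A : ℝ)) →
          0 ≤ Q ∧ Q ≤ L ∧
          ∀ K : ℝ, 17 ≤ K → ∀ ε : ℝ, 0 < ε → ε ≤ 1 / 8 →
            ∃ Γ : Finset (ZMod N),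
              (Γ.card : ℝ) ≤ C * (1 + Q ^ 2 * Real.log (2 + Q / K) ^ 2
                + (L + Q ^ 2 * Real.log (2 + Q / K) ^ 2 * Real.log (Q + 2)) / Real.log (1 / ε)) ∧
              ∀ x : ZMod N,
                (∀ γ ∈ Γ,
                  |((γ * x).val : ℝ) / (N : ℝ) - ((round (((γ * x).val : ℝ) / (N : ℝ)) : ℤ) : ℝ)|
                    ≤ ε) →
                Real.exp (-K) * ((A.card : ℝ) ^ 4 / N) ≤ POP.rep4 A x := by
  obtain ⟨Ca, hCa, hset⟩ := local_set_pop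
  obtain ⟨C₁, hC₁, hmain⟩ := bohr_gen Ca hCa
  obtain ⟨C₂, hC₂, hpop⟩ := pop_final
  refine ⟨C₁ * 18162 + C₂ * 1000000000000, by positivity, ?_⟩
  intro N hN0 A hA hdens L Q hL hQ
  have hNe : NeZero N := ⟨hN0.ne'⟩
  have hN : (0 : ℝ) < N := by exact_mod_cast hN0
  have hc : (0 : ℝ) < A.card := by exact_mod_cast hA.card_pos
  have hEpos : (0 : ℝ) < (A.addEnergy A : ℝ) := by
    exact_mod_cast Finset.addEnergy_pos hA hA
  have hE1 : (A.addEnergy A : ℝ) ≤ (A.card : ℝ) ^ 3 := by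
    have h1 : A.addEnergy A ≤ A.card ^ 3 := by
      rw [energy_eq]
      calc ∑ d, repD A d ^ 2 ≤ ∑ d, A.card * repD A d := by
            refine Finset.sum_le_sum fun d _ => ?_
            rw [sq]
            exact Nat.mul_le_mul_right _ (repD_le A d)
        _ = A.card ^ 3 := by rw [← Finset.mul_sum, sum_repD]; ring
    exact_mod_cast h1
  have hE2 : (A.card : ℝ) ^ 4 ≤ N * (A.addEnergy A : ℝ) := by
    have h1 := sq_sum_le_card_mul_sum_sq (s := (Finset.univ : Finset (ZMod N)))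
      (f := fun d => (repD A d : ℝ))
    have h2 : ∑ d, (repD A d : ℝ) = (A.card : ℝ) ^ 2 := by exact_mod_cast sum_repD A
    have h3 : ∑ d, (repD A d : ℝ) ^ 2 = (A.addEnergy A : ℝ) := by
      rw [energy_eq]; push_cast; rfl
    rw [h2, h3, Finset.card_univ, ZMod.card] at h1
    calc (A.card : ℝ) ^ 4 = ((A.card : ℝ) ^ 2) ^ 2 := by ring
      _ ≤ _ := h1
  set K0 : ℝ := (A.card : ℝ) ^ 3 / (A.addEnergy A : ℝ) with hK0
  have hK01 : 1 ≤ K0 := by rw [hK0, le_div_iff₀ hEpos]; linarith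
  have hK0pos : 0 < K0 := by linarith
  have hQ0 : 0 ≤ Q := by rw [hQ]; exact Real.log_nonneg hK01
  have hQL : Q ≤ L := by
    rw [hQ, hL]
    apply Real.log_le_log hK0pos
    rw [hK0, div_le_div_iff₀ hEpos hc]
    calc (A.card : ℝ) ^ 3 * A.card = (A.card : ℝ) ^ 4 := by ring
      _ ≤ _ := hE2
  have hLlow : 1 / 2 ≤ L := by
    have h1 : (2 : ℝ) ≤ (N : ℝ) / A.card := by
      rw [le_div_iff₀ hc]
      rw [div_le_iff₀ hN] at hdens
      linarith
    have h2 := Real.log_le_log (by norm_num) h1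
    have h3 := Real.log_two_gt_d9
    rw [hL]; linarith
  refine ⟨hQ0, hQL, ?_⟩
  intro K hK ε hε hε8
  have hlogε : 0 < Real.log (1 / ε) := by
    apply Real.log_pos
    rw [lt_div_iff₀ hε]; linarith
  have hl := LC_log_two_le Q hQ0
  have hell := ell_ge hQ0 hK
  rcases le_or_gt L (99 * Q + 310) with hcase | hcase
  · obtain ⟨Γ, hΓ, hincl⟩ := hpop N hN0 A hA hdens L hL K hK ε hε hε8
    refine ⟨Γ, ?_, hincl⟩
    have h1 := case1 hQ0 hK hLlow hcase hlogε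
    have h2 : 0 ≤ (L + Q ^ 2 * Real.log (2 + Q / K) ^ 2 * Real.log (Q + 2)) / Real.log (1 / ε) := by positivity
    have h3 : 0 ≤ Q ^ 2 * Real.log (2 + Q / K) ^ 2 := by positivity
    have h4 := mul_le_mul_of_nonneg_left h1 hC₂.le
    have h5 : 0 ≤ C₁ * 18162 * (1 + Q ^ 2 * Real.log (2 + Q / K) ^ 2
      + (L + Q ^ 2 * Real.log (2 + Q / K) ^ 2 * Real.log (Q + 2)) / Real.log (1 / ε)) := by positivity
    linarith
  obtain ⟨A', hA'A, hA'ne, hA'card, hA'dbl⟩ := bsg A hA K0 hK01 (by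
    rw [hK0, div_mul_cancel₀ _ hEpos.ne'])
  have hc' : (0 : ℝ) < A'.card := by exact_mod_cast hA'ne.card_pos
  have hKe : 43691 * K0 ^ 4 ≤ Real.exp (11 + 4 * Q) := by
    rw [← Real.log_le_iff_le_exp (by positivity), Real.log_mul (by norm_num) (by positivity),
      Real.log_pow, ← hQ]
    have := LC_log_const_le
    norm_num
    linarith
  have hA'N : (A'.card : ℝ) ≤ N := by
    have h1 := Finset.card_le_univ A'
    rw [ZMod.card] at h1
    exact_mod_cast h1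
  have hdbl := hA'dbl.trans (mul_le_mul_of_nonneg_right hKe hc'.le)
  obtain ⟨Γ, hΓ, hincl⟩ := hmain N hNe (Real.log ((N : ℝ) / A'.card))
    (Real.log_nonneg ((one_le_div hc').2 hA'N)) (11 + 4 * Q) (by linarith)
    (fun x => Real.exp (-K) * ((A.card : ℝ) ^ 4 / N) ≤ POP.rep4 A x) (fun l hl => by
      obtain ⟨X, hX, hX1, hX2⟩ := hset N hNe A' hA'ne (11 + 4 * Q) (by linarith) hdbl l hl
      refine ⟨X, hX, hX1, fun a b ha hb => ?_⟩
      have h1 := hX2 a b ha hb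
      have h2 : (POP.rep4 A' (∑ i, a i - ∑ i, b i) : ℝ) ≤ POP.rep4 A (∑ i, a i - ∑ i, b i) := by
        exact_mod_cast rep4_mono hA'A _
      refine le_trans ?_ (h1.trans h2)
      have h3 : (A.card : ℝ) ^ 4 / N = (A.card : ℝ) ^ 3 * Real.exp (-L) := by
        rw [hL, Real.exp_neg, Real.exp_log (by positivity)]
        field_simp
      have h4 : (A.card : ℝ) ≤ Real.exp (Q + 1) * A'.card := by
        have h5 : K0 = Real.exp Q := by rw [hQ, Real.exp_log hK0pos]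
        rw [h5] at hA'card
        have h6 : (8 / 3 : ℝ) ≤ Real.exp 1 := by
          have := Real.exp_one_gt_d9
          linarith
        have h7 : 0 < Real.exp Q * A'.card := mul_pos (Real.exp_pos _) hc'
        have h8 := mul_le_mul_of_nonneg_right h6 h7.le
        have h9 : Real.exp (Q + 1) * A'.card = Real.exp 1 * (Real.exp Q * A'.card) := by
          rw [Real.exp_add]
          ring
        rw [h9]
        linarith
      have h5 : (A.card : ℝ) ^ 3 ≤ Real.exp (3 * Q + 3) * (A'.card : ℝ) ^ 3 := by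
        calc (A.card : ℝ) ^ 3 ≤ (Real.exp (Q + 1) * A'.card) ^ 3 := pow_le_pow_left₀ hc.le h4 3
          _ = Real.exp (3 * Q + 3) * (A'.card : ℝ) ^ 3 := by
            rw [mul_pow, ← Real.exp_nat_mul]
            congr 2
            push_cast
            ring
      rw [h3]
      calc Real.exp (-K) * ((A.card : ℝ) ^ 3 * Real.exp (-L))
          ≤ Real.exp (-K) * ((Real.exp (3 * Q + 3) * (A'.card : ℝ) ^ 3) * Real.exp (-L)) := by gcongr
        _ = Real.exp (-K + (3 * Q + 3) + -L) * (A'.card : ℝ) ^ 3 := by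
            rw [Real.exp_add (-K + (3 * Q + 3)), Real.exp_add (-K)]
            ring
        _ ≤ Real.exp (-(24 * (11 + 4 * Q) + 43)) * (A'.card : ℝ) ^ 3 := by
            apply mul_le_mul_of_nonneg_right _ (by positivity)
            apply Real.exp_le_exp.2
            linarith) ε hε hε8
  refine ⟨Γ, ?_, hincl⟩
  have h1 : Real.log ((N : ℝ) / A'.card) ≤ L + Q + 1 := by
    have h2 : (N : ℝ) / A'.card ≤ (N : ℝ) / A.card * K0 * (8 / 3) := by
      rw [div_le_iff₀ hc']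
      have h3 : (N : ℝ) / A.card * K0 * (8 / 3) * A'.card
          = (N : ℝ) / A.card * (8 / 3) * (K0 * A'.card) := by ring
      rw [h3]
      calc (N : ℝ) = (N : ℝ) / A.card * (8 / 3) * (3 / 8 * A.card) := by field_simp
        _ ≤ (N : ℝ) / A.card * (8 / 3) * (K0 * A'.card) := by gcongr
    have h4 := Real.log_le_log (by positivity) h2
    rw [Real.log_mul (by positivity) (by norm_num), Real.log_mul (by positivity) hK0pos.ne',
      ← hL, ← hQ] at h4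
    have h5 : Real.log (8 / 3) ≤ 1 := by
      rw [Real.log_le_iff_le_exp (by norm_num)]
      have := Real.exp_one_gt_d9
      linarith
    linarith
  have h2 := case2 hQ0 hK hLlow hlogε hQL h1 hC₁ hΓ
  have h10 : 0 ≤ (L + Q ^ 2 * Real.log (2 + Q / K) ^ 2 * Real.log (Q + 2)) / Real.log (1 / ε) := by positivity
  have h11 : 0 ≤ Q ^ 2 * Real.log (2 + Q / K) ^ 2 := by positivity
  have h14 : 0 ≤ C₂ * 1000000000000 * (1 + Q ^ 2 * Real.log (2 + Q / K) ^ 2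
      + (L + Q ^ 2 * Real.log (2 + Q / K) ^ 2 * Real.log (Q + 2)) / Real.log (1 / ε)) := by positivity
  linarith

end Pool.H77.LP
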